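import Mathlib

set_option autoImplicit false

namespace Pool.Agent.Results.MP_768819_an.Yes

open Finset MeasureTheory

/-- sign step -/
noncomputable def sg (τ θ : ℝ) : ℝ := if θ ≤ τ then 1 else -1

theorem sg_meas (τ : ℝ) : Measurable (sg τ) :=
  Measurable.ite measurableSet_Iic measurable_const measurable_const

theorem sg_int (σ τ a b : ℝ) : IntervalIntegrable (fun θ => sg σ θ * sg τ θ) volume a b := by
  refine (intervalIntegrable_const (c := (1 : ℝ))).mono_fun'
    ((sg_meas σ).mul (sg_meas τ)).aestronglyMeasurable (Filter.Eventually.of_forall fun θ => ?_)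
  simp only [sg]; split_ifs <;> simp

theorem sg_val {σ τ h : ℝ} (h0 : 0 ≤ σ) (h1 : σ ≤ τ) (h2 : τ ≤ h) :
    ∫ θ in (0 : ℝ)..h, sg σ θ * sg τ θ = h - 2 * (τ - σ) := by
  rw [← intervalIntegral.integral_add_adjacent_intervals (sg_int σ τ 0 σ) (sg_int σ τ σ h),
    ← intervalIntegral.integral_add_adjacent_intervals (sg_int σ τ σ τ) (sg_int σ τ τ h),
    intervalIntegral.integral_congr_ae (g := fun _ => (1 : ℝ)) (a := 0),
    intervalIntegral.integral_congr_ae (g := fun _ => (-1 : ℝ)) (a := σ),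
    intervalIntegral.integral_congr_ae (g := fun _ => (1 : ℝ)) (a := τ)]
  · simp; ring
  all_goals refine Filter.Eventually.of_forall fun θ hθ => ?_
  · rw [Set.uIoc_of_le h2] at hθ
    simp [sg, not_le.2 hθ.1, not_le.2 (h1.trans_lt hθ.1)]
  · rw [Set.uIoc_of_le h1] at hθ
    simp [sg, not_le.2 hθ.1, hθ.2]
  · rw [Set.uIoc_of_le h0] at hθ
    simp [sg, hθ.2, hθ.2.trans h1]

theorem sg_abs {σ τ h : ℝ} (h0 : 0 ≤ σ) (h1 : σ ≤ h) (h2 : 0 ≤ τ) (h3 : τ ≤ h) :
    ∫ θ in (0 : ℝ)..h, sg σ θ * sg τ θ = h - 2 * |τ - σ| := by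
  rcases le_total σ τ with a | a
  · rw [sg_val h0 a h3, abs_of_nonneg (sub_nonneg.2 a)]
  · simp_rw [mul_comm (sg σ _)]
    rw [sg_val h2 a h1, abs_sub_comm, abs_of_nonneg (sub_nonneg.2 a)]

theorem avg {ι : Type} [Fintype ι] (w t : ι → ℝ) (hw : ∀ i, 0 ≤ w i) (h1 : ∑ i, w i = 1) {h : ℝ}
    (h0 : 0 ≤ h) (ht : ∀ i, 0 ≤ t i ∧ t i ≤ 2 * h) (d : ι → ι → ℝ)
    (hd : ∀ i j, d i j ≤ |t i - t j| ∧ d i j ≤ 2 * h - |t i - t j|) :
    2 * ∑ i, ∑ j, w i * w j * d i j ≤ h := by
  let s : ι → ℝ := fun i => if t i ≤ h then 1 else -1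
  let u : ι → ℝ := fun i => if t i ≤ h then t i else t i - h
  have hu : ∀ i, 0 ≤ u i ∧ u i ≤ h := fun i => by
    have := ht i; simp only [u]; split_ifs <;> constructor <;> linarith
  have p : 0 ≤ ∫ θ in (0 : ℝ)..h, (∑ i, w i * s i * sg (u i) θ) ^ 2 :=
    intervalIntegral.integral_nonneg h0 fun _ _ => sq_nonneg _
  have e : ∀ θ, (∑ i, w i * s i * sg (u i) θ) ^ 2 =
      ∑ i, ∑ j, w i * w j * (s i * s j) * (sg (u i) θ * sg (u j) θ) := fun θ => by
    rw [sq, sum_mul_sum]; exact sum_congr rfl fun i _ => sum_congr rfl fun j _ => by ring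
  simp_rw [e] at p
  rw [intervalIntegral.integral_finsetSum fun i _ => by
    have := IntervalIntegrable.sum univ fun j _ =>
      (sg_int (u i) (u j) 0 h).const_mul (w i * w j * (s i * s j))
    rwa [Finset.sum_fn] at this] at p
  have q : ∀ i, ∫ θ in (0 : ℝ)..h, ∑ j, w i * w j * (s i * s j) * (sg (u i) θ * sg (u j) θ) ≤
      ∑ j, w i * w j * (h - 2 * d i j) := fun i => by
    rw [intervalIntegral.integral_finsetSum fun j _ => (sg_int _ _ _ _).const_mul _]
    refine sum_le_sum fun j _ => ?_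
    rw [intervalIntegral.integral_const_mul, sg_abs (hu i).1 (hu i).2 (hu j).1 (hu j).2, mul_assoc]
    refine mul_le_mul_of_nonneg_left ?_ (mul_nonneg (hw i) (hw j))
    obtain ⟨a, b⟩ := hd i j
    simp only [s, u]
    split_ifs <;> cases abs_cases (t i - t j) <;>
      first
        | (cases abs_cases (t j - t i) <;> linarith)
        | (cases abs_cases (t j - h - t i) <;> linarith)
        | (cases abs_cases (t j - (t i - h)) <;> linarith)
        | (cases abs_cases (t j - h - (t i - h)) <;> linarith)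
  have r := p.trans (sum_le_sum fun i _ => q i)
  simp only [mul_sub, sum_sub_distrib, ← sum_mul, ← mul_sum, h1, mul_left_comm _ (2 : ℝ)] at r
  linarith

theorem result : ∀ (X : Type) [NormedAddCommGroup X] [NormedSpace ℝ X] (r : ℕ) [NeZero r]
    (p : Fin r → X), (∀ i, ‖p i‖ = 1) → (0 : X) ∈ convexHull ℝ (Set.range p) →
    ∀ σ : Equiv.Perm (Fin r), 4 ≤ ∑ k, ‖p (σ (k + 1)) - p (σ k)‖ := by
  intro X _ _ r _ p hp h0 σ
  rw [← σ.surjective.range_comp p, convexHull_range_eq_exists_affineCombination] at h0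
  obtain ⟨S, w', w0, w1, hw⟩ := h0
  rw [affineCombination_eq_linear_combination _ _ _ w1] at hw
  set q : ℕ → X := fun n => p (σ (Fin.ofNat r n)) with hq
  let t : ℕ → ℝ := fun n => ∑ k ∈ range n, ‖q (k + 1) - q k‖
  have tm : Monotone t := monotone_nat_of_le_succ fun n => by
    simp only [t, sum_range_succ]; exact le_add_of_nonneg_right (norm_nonneg _)
  have dl : ∀ m n, m ≤ n → ‖q n - q m‖ ≤ t n - t m := by
    intro m n h
    induction h with
    | refl => simp
    | @step n _ ih =>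
      have := norm_add_le (q (n + 1) - q n) (q n - q m)
      simp only [t, Nat.succ_eq_add_one, sum_range_succ, sub_add_sub_cancel] at *
      linarith
  have qr : q r = q 0 := by simp [hq, Fin.ofNat]
  have L : ∑ k, ‖p (σ (k + 1)) - p (σ k)‖ = t r := by
    simp only [t]
    rw [← Fin.sum_univ_eq_sum_range (fun k => ‖q (k + 1) - q k‖)]
    refine sum_congr rfl fun k _ => ?_
    have : Fin.ofNat r (k + 1) = k + 1 := by ext; simp [Fin.val_add]
    simp only [hq, this, Fin.ofNat_val_eq_self]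
  have qk : ∀ k : Fin r, q k = p (σ k) := fun k => by simp [hq]
  have t0 : t 0 = 0 := rfl
  let w : Fin r → ℝ := fun i => if i ∈ S then w' i else 0
  have ws : ∑ i, w i = 1 := by simp [w, w1]
  have wn : ∀ i, 0 ≤ w i := fun i => by simp only [w]; split_ifs with h; exacts [w0 i h, le_rfl]
  have wz : ∑ i, w i • q i = 0 := by simpa [w, qk] using hw
  have key : ∀ m n, m ≤ n → n ≤ r → ‖q n - q m‖ ≤ |t n - t m| ∧
      ‖q n - q m‖ ≤ 2 * (t r / 2) - |t n - t m| := by
    intro m n h1 h2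
    rw [abs_of_nonneg (sub_nonneg.2 (tm h1))]
    refine ⟨dl m n h1, ?_⟩
    have a := dl n r h2
    have b := dl 0 m (Nat.zero_le _)
    have c := norm_add_le (q r - q n) (q m - q 0)
    rw [show q r - q n + (q m - q 0) = q m - q n by rw [qr]; abel, norm_sub_rev] at c
    linarith
  have a := avg w (fun i => t i) wn ws (h := t r / 2) (by linarith [tm (Nat.zero_le r)])
    (fun i => ⟨by linarith [tm (Nat.zero_le i)], by linarith [tm i.2.le]⟩)
    (fun i j => ‖q i - q j‖) fun i j => by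
      rcases le_total (j : ℕ) i with h | h
      · exact key j i h i.2.le
      · rw [norm_sub_rev, abs_sub_comm]; exact key i j h j.2.le
  have b : ∀ i, w i ≤ ∑ j, w i * w j * ‖q i - q j‖ := fun i => by
    have e : q i = ∑ j, w j • (q i - q j) := by
      simp only [smul_sub, sum_sub_distrib, ← sum_smul, ws, wz, one_smul, sub_zero]
    have : 1 ≤ ∑ j, w j * ‖q i - q j‖ := by
      rw [← hp (σ i), ← qk]
      refine (congrArg norm e).le.trans ((norm_sum_le _ _).trans (le_of_eq ?_))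
      exact sum_congr rfl fun j _ => by rw [norm_smul, Real.norm_of_nonneg (wn j)]
    simp only [mul_assoc, ← mul_sum]
    exact le_mul_of_one_le_right (wn i) this
  have c := sum_le_sum fun i (_ : i ∈ univ) => b i
  rw [L]; linarith

end Pool.Agent.Results.MP_768819_an.Yes
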